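import Pool.Agent.Q93.VM.Final

/-!
# Vinogradov's mean value conjecture is decided by one dense set or weight at each scale

`J s k A` is the number of solutions of Vinogradov's system of degree `k` in `s` pairs of variables,
all variables in the finite set `A` of integers, and `JW s k A w` is the same count with the weight
`w(x_1) ⋯ w(x_s) w(y_1) ⋯ w(y_s)`.  The question Q1 is the bound
`J s k [1,N] ≤ C (N^s + N^(2s - k(k+1)/2))`.
-/

namespace Pool.Agent.Results.MP_e21eee_nt.DenseForms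

/-- The solutions `(x, y)` of Vinogradov's system of degree `k` in `s` pairs of variables, all
variables in the finite set `A` of integers. -/
def Sol (s k : ℕ) (A : Finset ℤ) : Finset ((Fin s → ℤ) × (Fin s → ℤ)) :=
  ((Fintype.piFinset fun _ : Fin s => A) ×ˢ (Fintype.piFinset fun _ : Fin s => A)).filter
    (fun p => ∀ j : Fin k, ∑ i, p.1 i ^ (j.val + 1) = ∑ i, p.2 i ^ (j.val + 1))

/-- The number `J_{s,k}(A)` of solutions. -/
def J (s k : ℕ) (A : Finset ℤ) : ℕ := (Sol s k A).card

/-- The solutions counted with the weight `∏ w(x_i) ∏ w(y_i)`. -/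
noncomputable def JW (s k : ℕ) (A : Finset ℤ) (w : ℤ → ℝ) : ℝ :=
  ∑ p ∈ Sol s k A, (∏ i, w (p.1 i)) * ∏ i, w (p.2 i)

/-- The interval `[1,N]`. -/
noncomputable def I (N : ℕ) : Finset ℤ := Finset.Icc (1 : ℤ) N

/-- The bound asked for in Q1. -/
noncomputable def Bd (s k N : ℕ) : ℝ :=
  (N : ℝ) ^ (s : ℝ) + (N : ℝ) ^ (2 * (s : ℝ) - (k : ℝ) * ((k : ℝ) + 1) / 2)

open scoped Classical in
/-- Main result.

1. For all `s, k`, the following are equivalent: the bound of Q1; the same bound for one nonnegative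
   weight of mean at least `δ` on each `[1,N]`; the same bound for `S ∩ [1,N]` for one set `S` of
   integers of positive lower density.
2. For `k ≥ 1` and `K = k(k+1)/2`, the bound of Q1 holds for this `k` and all `s ≥ 1` iff for some
   `δ > 0` and `C` every `[1,N]` contains a set `A` of at least `δ N` elements with
   `J K k A ≤ C N^K`. -/
theorem result :
    (∀ s k : ℕ, List.TFAE [
      ∃ C : ℝ, ∀ N : ℕ, 1 ≤ N → (J s k (I N) : ℝ) ≤ C * Bd s k N,
      ∃ δ > (0 : ℝ), ∃ C : ℝ, ∀ N : ℕ, 1 ≤ N → ∃ w : ℤ → ℝ, (∀ n, 0 ≤ w n) ∧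
        δ * N ≤ ∑ n ∈ I N, w n ∧ JW s k (I N) w ≤ C * Bd s k N,
      ∃ S : Set ℤ, (∃ δ > (0 : ℝ), ∀ᶠ N : ℕ in Filter.atTop,
          δ * N ≤ (((I N).filter (fun n => n ∈ S)).card : ℝ)) ∧
        ∃ C : ℝ, ∀ N : ℕ, 1 ≤ N →
          (J s k ((I N).filter (fun n => n ∈ S)) : ℝ) ≤ C * Bd s k N]) ∧
    (∀ k : ℕ, 1 ≤ k →
      ((∀ s : ℕ, 1 ≤ s → ∃ C : ℝ, ∀ N : ℕ, 1 ≤ N → (J s k (I N) : ℝ) ≤ C * Bd s k N) ↔
        ∃ δ > (0 : ℝ), ∃ C : ℝ, ∀ N : ℕ, 1 ≤ N → ∃ A ⊆ I N, δ * N ≤ (A.card : ℝ) ∧
          (J (k * (k + 1) / 2) k A : ℝ) ≤ C * (N : ℝ) ^ (k * (k + 1) / 2))) := by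
  refine ⟨?_, ?_⟩
  · intro s k
    have hBd1 : ∀ N : ℕ, 1 ≤ N → 1 ≤ Bd s k N := by
      intro N hN
      have h1 : (1 : ℝ) ≤ (N : ℝ) ^ (s : ℝ) :=
        Real.one_le_rpow (by exact_mod_cast hN) (by positivity)
      have h2 : (0 : ℝ) ≤ (N : ℝ) ^ (2 * (s : ℝ) - (k : ℝ) * ((k : ℝ) + 1) / 2) := by positivity
      unfold Bd
      linarith
    tfae_have 1 → 3 := by
      rintro ⟨C, hC⟩
      refine ⟨Set.univ, ⟨1, one_pos, Filter.Eventually.of_forall fun N => ?_⟩, C, fun N hN => ?_⟩
      · simp [I]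
      · simpa using hC N hN
    tfae_have 3 → 2 := by
      rintro ⟨S, ⟨δ, hδ, hev⟩, C, hC⟩
      obtain ⟨N₀, hN₀⟩ := Filter.eventually_atTop.1 hev
      refine ⟨min δ 1, lt_min hδ one_pos, max C ((N₀ : ℝ) ^ (2 * s)), fun N hN => ?_⟩
      have hb := hBd1 N hN
      have hNr : (0 : ℝ) ≤ N := by positivity
      rcases lt_or_ge N N₀ with h | h
      · refine ⟨fun _ => 1, fun _ => zero_le_one, ?_, ?_⟩
        · rw [Finset.sum_const, nsmul_eq_mul, mul_one]
          have : ((I N).card : ℝ) = N := by simp [I]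
          rw [this]
          have := min_le_right δ 1
          nlinarith
        · have e : JW s k (I N) (fun _ => 1) = J s k (I N) := Pool.Agent.Q93.VM.JW_one s k (I N)
          rw [e]
          have h1 := Pool.Agent.Q93.VM.J_up 0 s k (I N)
          have h2 : (Pool.Agent.Q93.VM.J 0 k (I N) : ℝ) ≤ 1 := by
            have := Pool.Agent.Q93.VM.J_perm 0 k (I N)
              (fun p _ => ⟨1, Subsingleton.elim _ _⟩)
            simp at this
            exact_mod_cast this
          have h3 : ((I N).card : ℝ) = N := by simp [I]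
          rw [zero_add, h3] at h1
          calc (J s k (I N) : ℝ) ≤ (N : ℝ) ^ (2 * s) * Pool.Agent.Q93.VM.J 0 k (I N) := h1
            _ ≤ (N : ℝ) ^ (2 * s) * 1 := mul_le_mul_of_nonneg_left h2 (by positivity)
            _ ≤ (N₀ : ℝ) ^ (2 * s) := by
                rw [mul_one]
                exact pow_le_pow_left₀ hNr (by exact_mod_cast h.le) _
            _ ≤ max C ((N₀ : ℝ) ^ (2 * s)) * 1 := by
                rw [mul_one]; exact le_max_right _ _
            _ ≤ max C ((N₀ : ℝ) ^ (2 * s)) * Bd s k N :=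
                mul_le_mul_of_nonneg_left hb (le_trans (by positivity) (le_max_right _ _))
      · refine ⟨fun n => if n ∈ (I N).filter (fun n => n ∈ S) then 1 else 0,
          fun n => by positivity, ?_, ?_⟩
        · rw [← Finset.sum_filter, Finset.filter_mem_eq_inter,
            Finset.inter_eq_right.2 (Finset.filter_subset _ _), Finset.sum_const, nsmul_eq_mul,
            mul_one]
          refine le_trans ?_ (hN₀ N h)
          exact mul_le_mul_of_nonneg_right (min_le_left _ _) hNr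
        · have e : JW s k (I N) (fun n => if n ∈ (I N).filter (fun n => n ∈ S) then 1 else 0) =
              J s k ((I N).filter (fun n => n ∈ S)) :=
            Pool.Agent.Q93.VM.JW_indicator s k _ _ (Finset.filter_subset _ _)
          rw [e]
          exact (hC N hN).trans (mul_le_mul_of_nonneg_right (le_max_left _ _) (by linarith))
    tfae_have 2 → 1 := by
      rintro ⟨δ, hδ, C, hC⟩
      exact ⟨_, Pool.Agent.Q93.VM.of_weight s k (fun N => Bd s k N) δ C hδ hC⟩
    tfae_finish
  · intro k hk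
    set K : ℕ := k * (k + 1) / 2 with hK
    have hKr : (k : ℝ) * ((k : ℝ) + 1) / 2 = K := by
      have h2 : 2 * K = k * (k + 1) := Nat.mul_div_cancel' (Nat.even_mul_succ_self k).two_dvd
      have h3 : (2 : ℝ) * K = k * (k + 1) := by exact_mod_cast h2
      linarith
    have hK1 : 1 ≤ K := by
      have h2 : 2 * K = k * (k + 1) := Nat.mul_div_cancel' (Nat.even_mul_succ_self k).two_dvd
      nlinarith
    constructor
    · intro h
      obtain ⟨C, hC⟩ := h K hK1
      refine ⟨1, one_pos, 2 * C, fun N hN => ⟨I N, subset_rfl, by simp [I], ?_⟩⟩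
      have h1 := hC N hN
      unfold Bd at h1
      rw [hKr] at h1
      have e : (2 * (K : ℝ) - K) = (K : ℝ) := by ring
      rw [e, Real.rpow_natCast] at h1
      linarith
    · rintro ⟨δ, hδ, C, hC⟩ s hs
      have h1 := Pool.Agent.Q93.VM.of_weight K k (fun N => (N : ℝ) ^ K) δ C hδ (fun N hN => by
        obtain ⟨A, hA, hd, hJ⟩ := hC N hN
        refine ⟨fun n => if n ∈ A then 1 else 0, fun n => by positivity, ?_, ?_⟩
        · have e : ∑ n ∈ Finset.Icc (1 : ℤ) N, (if n ∈ A then (1 : ℝ) else 0) = A.card := by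
            have hA' : A ⊆ Finset.Icc (1 : ℤ) N := hA
            rw [← Finset.sum_filter, Finset.filter_mem_eq_inter, Finset.inter_eq_right.2 hA']
            simp
          rw [e]
          exact hd
        · have e := Pool.Agent.Q93.VM.JW_indicator K k A (Finset.Icc (1 : ℤ) N) hA
          rw [e]
          exact hJ)
      obtain ⟨C', hC'⟩ := Pool.Agent.Q93.VM.of_critical k K hK1 _ h1 s hs
      refine ⟨C', fun N hN => ?_⟩
      have h2 := hC' N hN
      unfold Bd
      rw [hKr]
      exact h2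

end Pool.Agent.Results.MP_e21eee_nt.DenseForms
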