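import Pool.Agent.Q93.VM.Final

/-!
# Vinogradov mean values over dense sets

`J s k A` is the number of solutions of Vinogradov's system of degree `k` in `s` pairs of variables,
all variables in the finite set `A` of integers, and `JW s k A w` is the same count with the weight
`w(x_1) ⋯ w(x_s) w(y_1) ⋯ w(y_s)`.
-/

namespace Pool.Agent.Results.MP_e21eee_nt.DenseSets

/-- The solutions `(x, y)` of Vinogradov's system of degree `k` in `s` pairs of variables, all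
variables in the finite set `A` of integers. -/
def Sol (s k : ℕ) (A : Finset ℤ) : Finset ((Fin s → ℤ) × (Fin s → ℤ)) :=
  ((Fintype.piFinset fun _ : Fin s => A) ×ˢ (Fintype.piFinset fun _ : Fin s => A)).filter
    (fun p => ∀ j : Fin k, ∑ i, p.1 i ^ (j.val + 1) = ∑ i, p.2 i ^ (j.val + 1))

/-- The number `J_{s,k}(A)` of solutions. -/
def J (s k : ℕ) (A : Finset ℤ) : ℕ := (Sol s k A).card

/-- The solutions counted with the weight `∏ w(x_i) ∏ w(y_i)`. -/
noncomputable def JW (s k : ℕ) (A : Finset ℤ) (w : ℤ → ℝ) : ℝ :=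
  ∑ p ∈ Sol s k A, (∏ i, w (p.1 i)) * ∏ i, w (p.2 i)

/-- The interval `[1,N]`. -/
noncomputable def I (N : ℕ) : Finset ℤ := Finset.Icc (1 : ℤ) N

/-- Main result.

1. Affine comparison: if `a_t n + b_t` (`t` in a finite set `τ`, `a_t ≠ 0`) are affine maps and the
   nonnegative weights `w` on `A` and `v` on `B` satisfy `v n ≤ ∑_t ∑_{m ∈ A, a_t m + b_t = n} w m`
   on `B`, then `JW s k B v ≤ |τ|^(2s) JW s k A w`.
2. For every `A ⊆ [1,N]`, `J s k A ≥ (|A| / 2N)^(2s) J s k [1,N]`.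
3. The exceptional pair: for every `A ⊆ [1,N]`,
   `J 3 2 A ≥ |A|^6 log N / (2^20 N^3)`; and if all solutions of the system for `(3,2)` in `A` are
   permutations, then `|A|^3 log N ≤ 2^23 N^3`. -/
theorem result :
    (∀ (s k : ℕ) (τ : Type) [Fintype τ] (a b : τ → ℤ), (∀ t, a t ≠ 0) →
      ∀ (A B : Finset ℤ) (w v : ℤ → ℝ), (∀ n, 0 ≤ w n) → (∀ n, 0 ≤ v n) →
      (∀ n ∈ B, v n ≤ ∑ t, ∑ m ∈ A.filter (fun m => a t * m + b t = n), w m) →
      JW s k B v ≤ (Fintype.card τ : ℝ) ^ (2 * s) * JW s k A w) ∧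
    (∀ s k N : ℕ, 1 ≤ N → ∀ A ⊆ I N,
      ((A.card : ℝ) / (2 * N)) ^ (2 * s) * J s k (I N) ≤ J s k A) ∧
    (∀ N : ℕ, 1 ≤ N → ∀ A ⊆ I N,
      (A.card : ℝ) ^ 6 * Real.log N / (2 ^ 20 * (N : ℝ) ^ 3) ≤ J 3 2 A ∧
      ((∀ p ∈ Sol 3 2 A, ∃ σ : Equiv.Perm (Fin 3), p.2 = p.1 ∘ σ) →
        (A.card : ℝ) ^ 3 * Real.log N ≤ 2 ^ 23 * (N : ℝ) ^ 3)) := by
  refine ⟨?_, ?_, ?_⟩
  · intro s k τ _ a b ha A B w v hw hv hB
    exact Pool.Agent.Q93.VM.cover s k a b ha A B w v hw hv hB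
  · intro s k N hN A hA
    have h := Pool.Agent.Q93.VM.set_interval s k N hN A hA
    have hN0 : (0 : ℝ) < N := by exact_mod_cast hN
    rw [div_pow, div_mul_eq_mul_div, div_le_iff₀ (by positivity)]
    have h' : (A.card : ℝ) ^ (2 * s) * (J s k (I N) : ℝ) ≤ (2 * (N : ℝ)) ^ (2 * s) * J s k A := h
    linarith
  · intro N hN A hA
    have hN0 : (0 : ℝ) < N := by exact_mod_cast hN
    refine ⟨?_, ?_⟩
    · have h := Pool.Agent.Q93.VM.three_two N hN A hA
      rw [div_le_iff₀ (by positivity)]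
      have h' : (A.card : ℝ) ^ 6 * Real.log N ≤ 2 ^ 20 * (N : ℝ) ^ 3 * J 3 2 A := h
      linarith
    · intro h
      exact Pool.Agent.Q93.VM.three_two_B3 N hN A hA h

end Pool.Agent.Results.MP_e21eee_nt.DenseSets
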