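import Pool.Agent.Q255.L2.Almz
import Pool.Agent.Q151.L2.HY
import Pool.Agent.Q182.L2.QE
import Pool.Agent.Q153.L2.Vmq
import Pool.Agent.Q150.L2.CLG
import Pool.Agent.Q193.L2.Tup
import Pool.Agent.Q150.L2.VMA

/-!
# Vinogradov mean values twisted by almost all quadratic characters

`J_{s,k}(χ; I)` is the sum of `χ(x_1) … χ(x_s) χ(y_1) … χ(y_s)` over the solutions of Vinogradov's system with all
variables in `I`. For all `s, k ≥ 1` there are `c > 0` and `C₀` such that for all but few primes `p ≤ P`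
`|J_{s,k}((·/p); (a,b]) - s! (b-a)^s| ≤ C₀ N^{s-c}` for all `0 ≤ a ≤ b ≤ N` and all `N` with `Z ≤ N`, `(2N)^K ≤ P`; at most
`C P Z^(-B)` primes are excluded.
-/

set_option autoImplicit false

namespace Pool.Agent.Results.MP_e21eee_nt.QuadraticCharacters

open Finset

/-- the quadratic symbol `(n / p)` -/
noncomputable def chi (p n : ℕ) : ℝ := (jacobiSym (n : ℤ) p : ℝ)

open Classical in
/-- the solutions `(x, y)` of `x_1^j + … + x_s^j = y_1^j + … + y_s^j`, `1 ≤ j ≤ k`, with all the variables in `I` -/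
noncomputable def solutions (s k : ℕ) (I : Finset ℕ) : Finset ((Fin s → ℕ) × (Fin s → ℕ)) :=
  ((Fintype.piFinset fun _ : Fin s => I) ×ˢ (Fintype.piFinset fun _ : Fin s => I)).filter fun t =>
    ∀ j ∈ Icc 1 k, ∑ i, t.1 i ^ j = ∑ i, t.2 i ^ j

/-- `J_{s,k}(χ; I)`: the sum of `χ(x_1) … χ(x_s) χ(y_1) … χ(y_s)` over the solutions with all the variables in `I` -/
noncomputable def J (χ : ℕ → ℝ) (s k : ℕ) (I : Finset ℕ) : ℝ :=
  ∑ t ∈ solutions s k I, (∏ i, χ (t.1 i)) * ∏ i, χ (t.2 i)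

/-- the power of two above `n` -/
theorem pow_above {n : ℕ} (hn : 1 ≤ n) : ∃ J : ℕ, n ≤ 2 ^ J ∧ 2 ^ J ≤ 2 * n := by
  refine ⟨Nat.clog 2 n, Nat.le_pow_clog (by norm_num) n, ?_⟩
  rcases Nat.eq_or_lt_of_le hn with h | h
  · rw [← h]
    simp
  · have h1 := Nat.pow_pred_clog_lt_self (b := 2) (by norm_num) h
    have h2 : 0 < Nat.clog 2 n := Nat.clog_pos (by norm_num) h
    obtain ⟨m, hm⟩ : ∃ m, Nat.clog 2 n = m + 1 := ⟨Nat.clog 2 n - 1, by omega⟩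
    rw [hm, Nat.pred_succ] at h1
    rw [hm, pow_succ]
    omega

theorem vm : Pool.Agent.Q255.L2.S_VMQ :=
  Pool.Agent.Q153.L2.vmq (Pool.Agent.Q182.L2.qe Pool.Agent.Q151.L2.hy)
    (Pool.Agent.Q150.L2.vma (Pool.Agent.Q150.L2.clg Pool.Agent.Q193.L2.tup Pool.Agent.Q193.L2.par))

/-- **Vinogradov mean values twisted by almost all quadratic characters.**

For all `s, k ≥ 1` there are `c > 0`, `C₀` such that for every `B ≥ 0` there are `K`, `C` such that for all `P` and `Z ≥ 1`: all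
but at most `C P Z^(-B)` of the odd primes `p ≤ P` satisfy `|J_{s,k}((·/p); (a,b]) - s! (b-a)^s| ≤ C₀ N^(s-c)` for all
`N` with `Z ≤ N`, `(2N)^K ≤ P` and all `0 ≤ a ≤ b ≤ N`. -/
theorem result :
    ∀ s k : ℕ, 1 ≤ s → 1 ≤ k → ∃ c C₀ : ℝ, 0 < c ∧ ∀ B : ℝ, 0 ≤ B → ∃ (K : ℕ) (C : ℝ), ∀ (P : ℕ) (Z : ℝ), 1 ≤ Z →
      ({p : ℕ | p ≤ P ∧ p.Prime ∧ p ≠ 2 ∧ ∃ N a b : ℕ, Z ≤ N ∧ (2 * N) ^ K ≤ P ∧ a ≤ b ∧ b ≤ N ∧
        C₀ * (N : ℝ) ^ ((s : ℝ) - c) < |J (chi p) s k (Ioc a b) - (s.factorial : ℝ) * ((b : ℝ) - a) ^ s|}.ncard : ℝ) ≤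
          C * P * Z ^ (-B) := by
  intro s k hs hk
  classical
  obtain ⟨c, C₁, hc, hC₁, h⟩ := vm s k hs hk
  refine ⟨c, C₁ * (2 : ℝ) ^ |(s : ℝ) - c|, hc, fun B hB => ?_⟩
  obtain ⟨K, C, hC0, hC⟩ := Pool.Agent.Q255.L2.almz (r := 0) (h.mono fun J m h => h) hB
  refine ⟨K, C, fun P Z hZ => ?_⟩
  set S : Set ℕ := {p : ℕ | p ≤ P ∧ p.Prime ∧ p ≠ 2 ∧ ∃ N a b : ℕ, Z ≤ N ∧ (2 * N) ^ K ≤ P ∧ a ≤ b ∧ b ≤ N ∧
        C₁ * (2 : ℝ) ^ |(s : ℝ) - c| * (N : ℝ) ^ ((s : ℝ) - c) <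
          |J (chi p) s k (Ioc a b) - (s.factorial : ℝ) * ((b : ℝ) - a) ^ s|} with hS
  have hfinS : S.Finite := (Set.finite_le_nat P).subset fun p hp => hp.1
  rw [Set.ncard_eq_toFinset_card S hfinS]
  refine hC P Z _ hZ fun p hp => ?_
  rw [Set.Finite.mem_toFinset] at hp
  obtain ⟨hpP, hpp, -, N, a, b, hZN, hNP, hab, hbN, hbad⟩ := hp
  have hN1 : 1 ≤ N := by
    have : (1 : ℝ) ≤ N := hZ.trans hZN
    exact_mod_cast this
  have hN0 : (0 : ℝ) < N := by exact_mod_cast hN1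
  obtain ⟨J', hJ1, hJ2⟩ := pow_above hN1
  have hJ1' : (N : ℝ) ≤ (2 : ℝ) ^ J' := by exact_mod_cast hJ1
  have hJ2' : (2 : ℝ) ^ J' ≤ 2 * N := by exact_mod_cast hJ2
  refine ⟨hpP, hpp, J', hZN.trans hJ1', ?_, fun hcon => ?_⟩
  · rw [mul_comm, pow_mul]
    exact (Nat.pow_le_pow_left hJ2 K).trans hNP
  · have h3 := hcon a b hab (hbN.trans hJ1)
    have h4 : ((2 : ℝ) ^ J') ^ ((s : ℝ) - c) ≤ (2 : ℝ) ^ |(s : ℝ) - c| * (N : ℝ) ^ ((s : ℝ) - c) := by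
      have hq0 : (0 : ℝ) < (2 : ℝ) ^ J' / N := by positivity
      have hq1 : 1 ≤ (2 : ℝ) ^ J' / N := by rw [le_div_iff₀ hN0]; linarith
      have hq2 : (2 : ℝ) ^ J' / N ≤ 2 := by rw [div_le_iff₀ hN0]; linarith
      have e : (2 : ℝ) ^ J' = (2 : ℝ) ^ J' / N * N := by field_simp
      rw [e, Real.mul_rpow hq0.le hN0.le]
      refine mul_le_mul_of_nonneg_right ?_ (by positivity)
      calc ((2 : ℝ) ^ J' / N) ^ ((s : ℝ) - c) ≤ ((2 : ℝ) ^ J' / N) ^ |(s : ℝ) - c| :=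
            Real.rpow_le_rpow_of_exponent_le hq1 (le_abs_self _)
        _ ≤ 2 ^ |(s : ℝ) - c| := Real.rpow_le_rpow hq0.le hq2 (abs_nonneg _)
    have h5 : C₁ * ((2 : ℝ) ^ J') ^ ((s : ℝ) - c) ≤ C₁ * (2 : ℝ) ^ |(s : ℝ) - c| * (N : ℝ) ^ ((s : ℝ) - c) := by
      rw [mul_assoc]
      exact mul_le_mul_of_nonneg_left h4 hC₁
    exact absurd (h3.trans h5) (not_le.2 hbad)

end Pool.Agent.Results.MP_e21eee_nt.QuadraticCharacters
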