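import Pool.Agent.Q255.L2.Eng
import Pool.Agent.Q150.L2.CLG
import Pool.Agent.Q193.L2.Tup
import Pool.Agent.Q150.L2.VMA
import Pool.Agent.Q184.L2.Vmb
import Pool.Agent.Q124.L2.Vmc

/-!
# Vinogradov mean values twisted by random multiplicative signs with any joint law of small information

Let `f` be completely multiplicative with the values `1`, `-1` at the primes and `J_{s,k}(f; I)` the sum of
`f(x_1) … f(x_s) f(y_1) … f(y_s)` over the solutions of Vinogradov's system with all variables in `I`. The signs at the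
primes may have any joint law whatsoever; `I(x)` is the relative entropy (Kullback-Leibler divergence) of the law of the
signs `f(p)`, `p ≤ x`, to independent fair signs.

1. If `I(x) ≤ x^{o(1)}`, then almost surely, for all `f'` equal to `f` at all but finitely many primes and all `s, k ≥ 1`:
`J_{s,k}(f'; (a,b]) = s! (b-a)^s + O(N^{s-c})` for all `0 ≤ a ≤ b ≤ N`, with some `c > 0`.
2. For every `0 < δ < 1` there is a law with `I(x) = O(x^δ)` and `E J_{s,k}(f; [1,N]) ≥ c N^{s+δs-k(k+1)/2}` for all `s, k ≥ 1`.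
-/

set_option autoImplicit false

namespace Pool.Agent.Results.MP_e21eee_nt.RandomTwistsSmallInfo

open Finset Filter Topology MeasureTheory

/-- the sign at the prime with the number `k` (`2` has the number `0`) -/
def sign (ω : ℕ → Bool) (k : ℕ) : ℝ := if ω k then 1 else -1

/-- `f(n) = ∏_p f(p)^{v_p(n)}`, the completely multiplicative function with the sign `ω k` at the prime with the
number `k` (`Nat.count Nat.Prime p` is the number of the primes less than `p`) -/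
noncomputable def f (ω : ℕ → Bool) (n : ℕ) : ℝ :=
  n.factorization.prod fun p j => sign ω (Nat.count Nat.Prime p) ^ j

/-- `I(x)`: the relative entropy `∑_s q(s) log (2^n q(s))` of the law `q` of the signs at the `n = π(x)` primes
`p ≤ x` to independent fair signs, in nats -/
noncomputable def information (ν : Measure (ℕ → Bool)) (x : ℕ) : ℝ :=
  ∑ s : Fin (Nat.primeCounting x) → Bool, ν.real {ω | ∀ k : Fin (Nat.primeCounting x), ω k = s k} *
    Real.log (2 ^ Nat.primeCounting x *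
      ν.real {ω | ∀ k : Fin (Nat.primeCounting x), ω k = s k})

/-- `I(x) ≤ x^{o(1)}` -/
def SmallInformation (ν : Measure (ℕ → Bool)) : Prop :=
  ∀ ε : ℝ, 0 < ε → ∀ᶠ x : ℕ in atTop, information ν x ≤ (x : ℝ) ^ ε

open Classical in
/-- the solutions `(x, y)` of `x_1^j + … + x_s^j = y_1^j + … + y_s^j`, `1 ≤ j ≤ k`, with all the variables in `I` -/
noncomputable def solutions (s k : ℕ) (I : Finset ℕ) : Finset ((Fin s → ℕ) × (Fin s → ℕ)) :=
  ((Fintype.piFinset fun _ : Fin s => I) ×ˢ (Fintype.piFinset fun _ : Fin s => I)).filter fun t =>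
    ∀ j ∈ Icc 1 k, ∑ i, t.1 i ^ j = ∑ i, t.2 i ^ j

/-- `J_{s,k}(χ; I)`: the sum of `χ(x_1) … χ(x_s) χ(y_1) … χ(y_s)` over the solutions with all the variables in `I` -/
noncomputable def J (χ : ℕ → ℝ) (s k : ℕ) (I : Finset ℕ) : ℝ :=
  ∑ t ∈ solutions s k I, (∏ i, χ (t.1 i)) * ∏ i, χ (t.2 i)

/-! ## Translation -/

open Pool.Agent.Q255.EP

theorem info_eq (ν : Measure (ℕ → Bool)) [IsProbabilityMeasure ν] (x : ℕ) :
    information ν x = Pool.Agent.Q255.IR.D ν (Nat.primeCounting x) := D_eq_sum ν _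

theorem small_iff (ν : Measure (ℕ → Bool)) [IsProbabilityMeasure ν] :
    SmallInformation ν ↔ ∀ ε : ℝ, 0 < ε → ∀ᶠ x : ℕ in atTop,
      Pool.Agent.Q255.IR.D ν (Nat.primeCounting x) ≤ (x : ℝ) ^ ε := by
  unfold SmallInformation
  simp only [info_eq]

theorem upper (ν : Measure (ℕ → Bool)) [IsProbabilityMeasure ν] (hν : SmallInformation ν) :
    ∀ᵐ ω ∂ν, ∀ ω' : ℕ → Bool, {k | ω' k ≠ ω k}.Finite → ∀ s k : ℕ, 1 ≤ s → 1 ≤ k →
      ∃ c C : ℝ, 0 < c ∧ ∀ N a b : ℕ, 1 ≤ N → a ≤ b → b ≤ N →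
        |J (f ω') s k (Ioc a b) - (s.factorial : ℝ) * ((b : ℝ) - a) ^ s| ≤ C * (N : ℝ) ^ ((s : ℝ) - c) := by
  refine Pool.Agent.Q255.L2.ae_fin0 (fun ν' _ hν' => ?_) ν ((small_iff ν).1 hν)
  exact Pool.Agent.Q184.L2.vmb Pool.Agent.Q255.L2.t_ENG2
    (Pool.Agent.Q150.L2.vma (Pool.Agent.Q150.L2.clg Pool.Agent.Q193.L2.tup Pool.Agent.Q193.L2.par)) ν' hν'

theorem lower {δ : ℝ} (hδ0 : 0 < δ) (hδ : δ < 1) :
    ∃ ν : Measure (ℕ → Bool), IsProbabilityMeasure ν ∧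
      (∃ C : ℝ, ∀ x : ℕ, 1 ≤ x → information ν x ≤ C * (x : ℝ) ^ δ) ∧
      ∀ s k : ℕ, 1 ≤ s → 1 ≤ k → ∃ c : ℝ, 0 < c ∧ ∀ N : ℕ, 1 ≤ N →
        c * (N : ℝ) ^ ((s : ℝ) + s * δ - k * (k + 1) / 2) ≤ ∫ ω, J (f ω) s k (Icc 1 N) ∂ν := by
  obtain ⟨ν, hν, ⟨C, hC⟩, h⟩ := Pool.Agent.Q124.L2.vmc δ hδ0 hδ
  refine ⟨ν, hν, ⟨C, fun x hx => ?_⟩, h⟩
  rw [info_eq]
  exact hC x hx

/-- **Vinogradov mean values twisted by random multiplicative signs with any joint law of small information.**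

1. `I(x) ≤ x^{o(1)}`: almost surely, for every `f'` equal to `f` at all but finitely many primes and all `s, k ≥ 1`, there
are `c > 0` and `C` with `|J_{s,k}(f'; (a,b]) - s! (b-a)^s| ≤ C N^{s-c}` for all `0 ≤ a ≤ b ≤ N`, `N ≥ 1`.
2. For every `0 < δ < 1` there is a law with `I(x) ≤ C x^δ` such that for all `s, k ≥ 1` there is `c > 0` with
`E J_{s,k}(f; [1,N]) ≥ c N^{s+δs-k(k+1)/2}` for all `N ≥ 1`. -/
theorem result :
    (∀ (ν : Measure (ℕ → Bool)) [IsProbabilityMeasure ν], SmallInformation ν →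
      ∀ᵐ ω ∂ν, ∀ ω' : ℕ → Bool, {k | ω' k ≠ ω k}.Finite → ∀ s k : ℕ, 1 ≤ s → 1 ≤ k →
        ∃ c C : ℝ, 0 < c ∧ ∀ N a b : ℕ, 1 ≤ N → a ≤ b → b ≤ N →
          |J (f ω') s k (Ioc a b) - (s.factorial : ℝ) * ((b : ℝ) - a) ^ s| ≤ C * (N : ℝ) ^ ((s : ℝ) - c)) ∧
    (∀ δ : ℝ, 0 < δ → δ < 1 → ∃ ν : Measure (ℕ → Bool), IsProbabilityMeasure ν ∧
      (∃ C : ℝ, ∀ x : ℕ, 1 ≤ x → information ν x ≤ C * (x : ℝ) ^ δ) ∧
      ∀ s k : ℕ, 1 ≤ s → 1 ≤ k → ∃ c : ℝ, 0 < c ∧ ∀ N : ℕ, 1 ≤ N →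
        c * (N : ℝ) ^ ((s : ℝ) + s * δ - k * (k + 1) / 2) ≤ ∫ ω, J (f ω) s k (Icc 1 N) ∂ν) :=
  ⟨fun ν _ hν => upper ν hν, fun _ h0 h1 => lower h0 h1⟩

end Pool.Agent.Results.MP_e21eee_nt.RandomTwistsSmallInfo
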